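import Pool.Agent.Q20.SmallAut.Count

/-!
No power of `φ(|G|)` is a lower bound for `|Aut G|`, even for finite nilpotent groups.
-/

namespace Pool.Agent.Results.MP_a94181_al.NoExponent

open Q20.SmallAut

/-- **Negative answer to Q1 and Q2.**  For every real `a > 0` there is a finite `2`-group `G`
(in particular a finite nilpotent group) with `|Aut(G)| < φ(|G|) ^ a`. -/
theorem result : ∀ a : ℝ, 0 < a → ∃ (G : Type) (_ : Group G), Finite G ∧ IsPGroup 2 G ∧
    Group.IsNilpotent G ∧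
    (Nat.card (MulAut G) : ℝ) < (Nat.totient (Nat.card G) : ℝ) ^ a := by
  intro a ha
  obtain ⟨s0, hs0⟩ := exists_nat_ge (7 / a)
  let s : ℕ := max 5 s0
  have hs5 : 5 ≤ s := le_max_left _ _
  have hsa : 7 ≤ a * s := by
    have h1 : (s0 : ℝ) ≤ s := by exact_mod_cast le_max_right 5 s0
    have h2 : 7 / a ≤ s := hs0.trans h1
    rw [div_le_iff₀ ha] at h2
    linarith
  clear_value s
  let m : ℕ := 2 * s * (2 * s) * (2 * s + 1) + 2
  have hm : 2 ≤ m := Nat.le_add_left _ _
  have hm' : 2 * s * (2 * s) * (2 * s + 1) < m := by omega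
  clear_value m
  have hne : NeZero (2 ^ m) := inferInstance
  have hfact : Fact (Nat.Prime 2) := ⟨Nat.prime_two⟩
  have hp := isPGroup_Gp s m
  have hfin : Finite (Gp (bet s (ZMod (2 ^ m)))) := inferInstance
  refine ⟨Gp (bet s (ZMod (2 ^ m))), inferInstance, hfin, hp, hp.isNilpotent, ?_⟩
  have h1 := card_aut_le (s := s) (m := m) (by omega) hm
  have h2 := card_ge s m
  obtain ⟨k, hk⟩ := (IsPGroup.iff_card (p := 2)).mp hp
  rw [hk, ← pow_add] at h2
  have h3 : m * (s * s + 2 * s) + 1 ≤ k + 2 * m :=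
    (Nat.pow_le_pow_iff_right (by norm_num)).mp h2
  have h4 : m * (s * s) + 1 ≤ k := by
    have h5 : 2 * m ≤ m * (2 * s) := by
      have : m * 2 ≤ m * (2 * s) := Nat.mul_le_mul_left _ (by omega)
      omega
    rw [mul_add] at h3
    omega
  have h5 : Nat.totient (Nat.card (Gp (bet s (ZMod (2 ^ m))))) = 2 ^ (k - 1) := by
    rw [hk, Nat.totient_prime_pow Nat.prime_two (by omega)]
    norm_num
  have h6 : 2 ^ (m * (s * s)) ≤ 2 ^ (k - 1) := Nat.pow_le_pow_right (by norm_num) (by omega)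
  rw [h5]
  have h7 : Nat.card (MulAut (Gp (bet s (ZMod (2 ^ m))))) < 2 ^ (m * (6 * s + 5)) := by
    refine lt_of_le_of_lt h1 ?_
    apply Nat.pow_lt_pow_right (by norm_num)
    have : m * (6 * s + 5) = m * (6 * s + 4) + m := by ring
    omega
  have h8 : ((2 ^ (m * (6 * s + 5)) : ℕ) : ℝ) ≤ ((2 ^ (k - 1) : ℕ) : ℝ) ^ a := by
    have h9 : ((2 ^ (m * (s * s)) : ℕ) : ℝ) ^ a ≤ ((2 ^ (k - 1) : ℕ) : ℝ) ^ a := by
      apply Real.rpow_le_rpow (by positivity) _ ha.le
      exact_mod_cast h6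
    refine le_trans ?_ h9
    push_cast
    rw [← Real.rpow_natCast (2 : ℝ) (m * (6 * s + 5)), ← Real.rpow_natCast (2 : ℝ) (m * (s * s)),
      ← Real.rpow_mul (by norm_num)]
    apply Real.rpow_le_rpow_of_exponent_le (by norm_num)
    push_cast
    have hs5' : (5 : ℝ) ≤ s := by exact_mod_cast hs5
    have hm0 : (0 : ℝ) ≤ m := by positivity
    have hs0' : (0 : ℝ) ≤ s := by positivity
    have h10 : (6 * s + 5 : ℝ) ≤ s * s * a := by nlinarith
    calc (m : ℝ) * (6 * s + 5) ≤ m * (s * s * a) := mul_le_mul_of_nonneg_left h10 hm0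
      _ = m * (s * s) * a := by ring
  refine lt_of_lt_of_le ?_ h8
  exact_mod_cast h7

end Pool.Agent.Results.MP_a94181_al.NoExponent
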